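import Pool.Agent.Helper47.ER.Goals
import Mathlib

/-!
# Project ER (MP_5b9a11_al): packet ORP, the parity of the number of orbits
-/

set_option autoImplicit false

namespace Pool.Agent.Helper40.ER.ORP

open Pool.Agent.Helper98.EQ (nz)
open Pool.Agent.Helper47.ER (zo S_ORP)

variable {A : Type} [Fintype A]

/-- the cycle of `a` is the orbit of `a` under the powers of `g` -/
theorem fib_card (g : Equiv.Perm A) (n : ℕ) (hg : g ^ n = 1) (hn : Odd n) (a : A) :
    Odd (Nat.card {x : A // Quotient.mk (Equiv.Perm.SameCycle.setoid g) x =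
      Quotient.mk (Equiv.Perm.SameCycle.setoid g) a}) := by
  classical
  have h1 : Nat.card {x : A // Quotient.mk (Equiv.Perm.SameCycle.setoid g) x =
      Quotient.mk (Equiv.Perm.SameCycle.setoid g) a} =
      Nat.card (MulAction.orbit (Subgroup.zpowers g) a) := by
    refine Nat.card_congr (Equiv.subtypeEquivRight fun x => ?_)
    rw [Quotient.eq, MulAction.mem_orbit_iff]
    show (∃ i : ℤ, (g ^ i) x = a) ↔ _
    constructor
    · rintro ⟨i, hi⟩
      refine ⟨⟨g ^ (-i), -i, rfl⟩, ?_⟩
      show (g ^ (-i)) a = x
      rw [← hi, zpow_neg]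
      exact (g ^ i).symm_apply_apply x
    · rintro ⟨⟨y, i, rfl⟩, hi⟩
      refine ⟨-i, ?_⟩
      rw [← hi, zpow_neg]
      exact (g ^ i).symm_apply_apply a
  rw [h1]
  have h2 : Nat.card (MulAction.orbit (Subgroup.zpowers g) a) ∣ n := by
    have h3 := MulAction.card_orbit_mul_card_stabilizer_eq_card_group (Subgroup.zpowers g) a
    have h4 : Nat.card (MulAction.orbit (Subgroup.zpowers g) a) ∣ Nat.card (Subgroup.zpowers g) := by
      rw [Nat.card_eq_fintype_card, Nat.card_eq_fintype_card, ← h3]
      exact Dvd.intro _ rfl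
    refine h4.trans ?_
    rw [Nat.card_zpowers]
    exact orderOf_dvd_of_pow_eq_one hg
  exact hn.of_dvd_nat h2

/-- PACKET ORP -/
theorem t : S_ORP := by
  intro p hp hp2 A _ g k hg j
  classical
  have hodd : Odd (p ^ k) := (hp.out.odd_of_ne_two hp2).pow
  have hfib := fib_card g (p ^ k) hg hodd
  have hnum : nz g j + zo g j = Fintype.card (Quotient (Equiv.Perm.SameCycle.setoid g)) := by
    unfold nz zo
    rw [Nat.card_eq_fintype_card, Nat.card_eq_fintype_card, Fintype.card_subtype,
      Fintype.card_subtype, add_comm, Finset.card_filter_add_card_filter_not, Finset.card_univ]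
  have hA : Fintype.card A = ∑ o : Quotient (Equiv.Perm.SameCycle.setoid g),
      (Finset.univ.filter fun x : A => Quotient.mk (Equiv.Perm.SameCycle.setoid g) x = o).card := by
    rw [← Finset.card_univ]
    exact Finset.card_eq_sum_card_fiberwise fun x _ => Finset.mem_univ _
  rw [add_assoc, hnum, hA, ← Finset.card_univ, Finset.card_eq_sum_ones, ← Finset.sum_add_distrib]
  refine Finset.even_sum _ fun o _ => ?_
  induction o using Quotient.inductionOn with
  | h a =>
    have := hfib a
    rw [Nat.card_eq_fintype_card, Fintype.card_subtype] at this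
    exact this.add_one

end Pool.Agent.Helper40.ER.ORP
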